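import Mathlib
import Pool.Agent.H77.TF.Stm

/-!
# A point over a larger field with the given relations
-/

set_option autoImplicit false

open MvPolynomial Module

namespace Pool.Agent.H83.TF

open Pool.Agent.H77.TF

/-- A point over a larger field whose relations over the base field are the given space. -/
theorem pnt : S_PNT := by
  intro K _ l W
  let Q := (Fin l → K) ⧸ W
  let r := finrank K Q
  let b : Basis (Fin r) K Q := Module.finBasis K Q
  let F := FractionRing (MvPolynomial (Fin r) K)
  let Λ : (Fin r → K) →ₗ[K] F :=
    (IsScalarTower.toAlgHom K (MvPolynomial (Fin r) K) F).toLinearMap ∘ₗ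
      (Fintype.linearCombination K (fun j : Fin r => (X j : MvPolynomial (Fin r) K)))
  have hΛ : Function.Injective Λ := by
    have h1 : Function.Injective
        (Fintype.linearCombination K (fun j : Fin r => (X j : MvPolynomial (Fin r) K))) := by
      have := MvPolynomial.linearIndependent_X (R := K) (σ := Fin r)
      rw [← LinearMap.ker_eq_bot, Submodule.eq_bot_iff]
      intro g hg
      funext j
      exact Fintype.linearIndependent_iff.1 this g
        (by simpa [Fintype.linearCombination_apply] using hg) j
    have h2 : Function.Injective (algebraMap (MvPolynomial (Fin r) K) F) :=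
      IsFractionRing.injective _ _
    exact h2.comp h1
  let P : (Fin l → K) →ₗ[K] F := Λ ∘ₗ b.equivFun.toLinearMap ∘ₗ W.mkQ
  refine ⟨F, inferInstance, inferInstance, fun i => P (Pi.single i 1), fun a => ?_⟩
  have h3 : ∑ i, a i • P (Pi.single i 1) = P a := by
    rw [LinearMap.pi_apply_eq_sum_univ P a]
    refine Finset.sum_congr rfl fun i _ => ?_
    congr 2
    funext j
    rw [Pi.single_apply]
    simp only [eq_comm]
  rw [h3]
  constructor
  · intro h
    have h4 : Λ (b.equivFun (W.mkQ a)) = Λ 0 := by
      rw [map_zero]
      exact h
    have h5 := hΛ h4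
    have h6 : W.mkQ a = 0 := by
      apply b.equivFun.injective
      rw [h5, map_zero]
    exact (Submodule.Quotient.mk_eq_zero W).1 h6
  · intro h
    have h6 : W.mkQ a = 0 := (Submodule.Quotient.mk_eq_zero W).2 h
    change Λ (b.equivFun (W.mkQ a)) = 0
    rw [h6, map_zero, map_zero]

end Pool.Agent.H83.TF
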