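import Mathlib
import Pool.Agent.H77.TF.Stm

/-!
# The two forms of the blocking condition
-/

set_option autoImplicit false

open MvPolynomial Module

namespace Pool.Agent.H83.TF

open Pool.Agent.H77.TF

theorem hyp_eq {K : Type} [Field K] {l : ℕ} (a : Fin l → K) :
    hyp a = LinearMap.ker (dotProductEquiv K (Fin l) a) := by
  unfold hyp
  congr 1
  apply LinearMap.ext
  intro v
  simp [dotProduct, LinearMap.sum_apply]

theorem le_hyp_iff {K : Type} [Field K] {l : ℕ} (L : Submodule K (Fin l → K)) (a : Fin l → K) :
    L ≤ hyp a ↔ dotProductEquiv K (Fin l) a ∈ L.dualAnnihilator := by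
  rw [hyp_eq, Submodule.mem_dualAnnihilator]
  rfl

/-- The two forms of the blocking condition agree. -/
theorem dua : S_DUA := by
  intro K _ l ν A hl
  constructor
  · intro h W hW
    have hf : finrank K (W.map (dotProductEquiv K (Fin l)).toLinearMap) = 2 := by
      rw [← hW]
      exact LinearEquiv.finrank_map_eq (dotProductEquiv K (Fin l)) W
    have hd := Subspace.finrank_add_finrank_dualCoannihilator_eq
      (W.map (dotProductEquiv K (Fin l)).toLinearMap)
    rw [hf, finrank_fin_fun] at hd
    obtain ⟨i, hi⟩ := h (W.map (dotProductEquiv K (Fin l)).toLinearMap).dualCoannihilator (by omega)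
    refine ⟨i, ?_⟩
    rw [le_hyp_iff, Subspace.dualCoannihilator_dualAnnihilator_eq] at hi
    obtain ⟨w, hw, he⟩ := hi
    have : w = A i := (dotProductEquiv K (Fin l)).injective he
    exact this ▸ hw
  · intro h L hL
    have hd := Subspace.finrank_add_finrank_dualAnnihilator_eq L
    rw [finrank_fin_fun] at hd
    have hf : finrank K (L.dualAnnihilator.map (dotProductEquiv K (Fin l)).symm.toLinearMap) = 2 := by
      rw [LinearEquiv.finrank_map_eq (dotProductEquiv K (Fin l)).symm L.dualAnnihilator]
      omega
    obtain ⟨i, hi⟩ := h _ hf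
    refine ⟨i, ?_⟩
    rw [le_hyp_iff]
    obtain ⟨w, hw, he⟩ := hi
    have : w = dotProductEquiv K (Fin l) (A i) := by
      rw [← he]
      simp
    exact this ▸ hw

end Pool.Agent.H83.TF
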