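import Mathlib
import Pool.Agent.H77.TF.Stm2
import Pool.Agent.H83.TF.Dua

/-!
# The number of the uncovered subspaces and its dual form
-/

set_option autoImplicit false

open MvPolynomial Module

namespace Pool.Agent.H83.TF

open Pool.Agent.H77.TF

/-- orthogonal complements for the dot product -/
noncomputable def orth (K : Type) [Field K] (l : ℕ) :
    Submodule K (Fin l → K) ≃ Submodule K (Fin l → K) where
  toFun L := L.dualAnnihilator.comap (dotProductEquiv K (Fin l)).toLinearMap
  invFun W := (W.map (dotProductEquiv K (Fin l)).toLinearMap).dualCoannihilator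
  left_inv L := by
    have h : (L.dualAnnihilator.comap (dotProductEquiv K (Fin l)).toLinearMap).map
        (dotProductEquiv K (Fin l)).toLinearMap = L.dualAnnihilator :=
      Submodule.map_comap_eq_of_surjective (dotProductEquiv K (Fin l)).surjective _
    change ((L.dualAnnihilator.comap (dotProductEquiv K (Fin l)).toLinearMap).map
      (dotProductEquiv K (Fin l)).toLinearMap).dualCoannihilator = L
    rw [h]
    exact Subspace.dualAnnihilator_dualCoannihilator_eq
  right_inv W := by
    change ((W.map (dotProductEquiv K (Fin l)).toLinearMap).dualCoannihilator).dualAnnihilator.comap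
      (dotProductEquiv K (Fin l)).toLinearMap = W
    rw [Subspace.dualCoannihilator_dualAnnihilator_eq]
    exact Submodule.comap_map_eq_of_injective (dotProductEquiv K (Fin l)).injective _

theorem mem_orth {K : Type} [Field K] {l : ℕ} (L : Submodule K (Fin l → K)) (a : Fin l → K) :
    a ∈ orth K l L ↔ L ≤ hyp a := by
  rw [le_hyp_iff]
  rfl

theorem finrank_orth {K : Type} [Field K] {l : ℕ} (L : Submodule K (Fin l → K)) :
    finrank K L + finrank K (orth K l L) = l := by
  have h1 := Subspace.finrank_add_finrank_dualAnnihilator_eq L
  rw [finrank_fin_fun] at h1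
  have h2 : finrank K (orth K l L) = finrank K L.dualAnnihilator := by
    have h3 : orth K l L = L.dualAnnihilator.map (dotProductEquiv K (Fin l)).symm.toLinearMap := by
      change L.dualAnnihilator.comap (dotProductEquiv K (Fin l)).toLinearMap = _
      exact (Submodule.map_equiv_eq_comap_symm (dotProductEquiv K (Fin l)).symm _).symm
    rw [h3]
    exact LinearEquiv.finrank_map_eq (dotProductEquiv K (Fin l)).symm L.dualAnnihilator
  omega

/-- The two forms of the number of the uncovered subspaces agree. -/
theorem du2 : S_DU2 := by
  intro K _ l ν A hl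
  refine Nat.card_congr (Equiv.subtypeEquiv (orth K l) fun L => ?_)
  have h1 := finrank_orth L
  constructor
  · rintro ⟨h2, h3⟩
    exact ⟨by omega, fun i hi => h3 i ((mem_orth L (A i)).1 hi)⟩
  · rintro ⟨h2, h3⟩
    exact ⟨by omega, fun i hi => h3 i ((mem_orth L (A i)).2 hi)⟩

end Pool.Agent.H83.TF
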